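import Pool.Agent.Helper53.PT.GoalsB

/-!
# Project PT, packet PROD
-/

set_option autoImplicit false

namespace Pool.Agent.Helper86.PT

open Set Pool.Agent.Helper53.PT

/-- Jensen for products: `-log f` convex. -/
theorem prod_le_pow {f : ℝ → ℝ} {s : Set ℝ} (hcv : ConvexOn ℝ s (fun x => -Real.log (f x)))
    {n : ℕ} (S : Finset (Fin n)) (y : Fin n → ℝ) (hS : S.Nonempty) (hy : ∀ i ∈ S, y i ∈ s)
    (hf : ∀ x ∈ s, 0 < f x) :
    (∑ i ∈ S, y i) / S.card ∈ s ∧ ∏ i ∈ S, f (y i) ≤ f ((∑ i ∈ S, y i) / S.card) ^ S.card := by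
  have hc : (0 : ℝ) < S.card := by exact_mod_cast hS.card_pos
  have hw : ∑ i ∈ S, (1 / (S.card : ℝ)) = 1 := by
    rw [Finset.sum_const, nsmul_eq_mul]
    field_simp
  have e1 : ∑ i ∈ S, (1 / (S.card : ℝ)) • y i = (∑ i ∈ S, y i) / S.card := by
    rw [← Finset.smul_sum, smul_eq_mul]
    ring
  have hmem : (∑ i ∈ S, y i) / S.card ∈ s := by
    rw [← e1]
    exact hcv.1.sum_mem (fun i _ => by positivity) hw hy
  refine ⟨hmem, ?_⟩
  have h1 := hcv.map_sum_le (t := S) (w := fun _ => 1 / (S.card : ℝ)) (p := y)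
    (fun i _ => by positivity) hw hy
  rw [e1] at h1
  simp only [smul_eq_mul] at h1
  rw [← Finset.mul_sum] at h1
  have h2 : ∑ i ∈ S, Real.log (f (y i)) ≤ S.card * Real.log (f ((∑ i ∈ S, y i) / S.card)) := by
    rw [Finset.sum_neg_distrib] at h1
    have h3 := mul_le_mul_of_nonneg_left h1 hc.le
    have h4 : (S.card : ℝ) * (1 / (S.card : ℝ) * -∑ i ∈ S, Real.log (f (y i))) =
        -∑ i ∈ S, Real.log (f (y i)) := by
      field_simp
    rw [h4] at h3
    linarith
  have h5 : ∏ i ∈ S, f (y i) = Real.exp (∑ i ∈ S, Real.log (f (y i))) := by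
    rw [Real.exp_sum]
    exact Finset.prod_congr rfl fun i hi => (Real.exp_log (hf _ (hy i hi))).symm
  have h6 : f ((∑ i ∈ S, y i) / S.card) ^ S.card =
      Real.exp (S.card * Real.log (f ((∑ i ∈ S, y i) / S.card))) := by
    rw [mul_comm, Real.exp_mul, Real.exp_log (hf _ hmem), Real.rpow_natCast]
  rw [h5, h6]
  exact Real.exp_le_exp.2 h2

/-- Tangent line. -/
theorem tangent {L : ℝ → ℝ} {s : Set ℝ} (hcv : ConvexOn ℝ s L) {x y d : ℝ} (hx : x ∈ s) (hy : y ∈ s)
    (hd : HasDerivAt L d x) : L x + d * (y - x) ≤ L y := by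
  rcases lt_trichotomy x y with h | h | h
  · have h1 := hcv.le_slope_of_hasDerivAt hx hy h hd
    rw [slope_def_field, le_div_iff₀ (by linarith)] at h1
    linarith
  · subst h
    simp
  · have h1 := hcv.slope_le_of_hasDerivAt hy hx h hd
    rw [slope_def_field, div_le_iff₀ (by linarith)] at h1
    linarith

theorem gPROD : GPROD := by
  intro hRL θ z m xW xD yN hFA n S y
  obtain ⟨hanti, hpos, hneg, -, -, hrr, -, hcv, hcc, hexp, -⟩ := hRL θ z m xW xD yN hFA
  have hfz := hFA.fz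
  have hθ0 : 0 < θ := by linarith [hFA.th0]
  have hθ1 : θ < 1 / 2 := hFA.th1
  have h0le : ∀ x, 0 ≤ x → x ≤ z → 0 ≤ f0 θ x := by
    intro x h0 h1
    rcases h1.lt_or_eq with h | h
    · exact (hpos x h0 h).le
    · rw [h, hfz]
  have hle : ∀ x, 0 ≤ x → x ≤ z → f0 θ x ≤ Real.exp (-x / 2) := by
    intro x h0 h1
    rcases h1.lt_or_eq with h | h
    · exact hexp x h0 h
    · rw [h, hfz]
      exact (Real.exp_pos _).le
  refine ⟨?_, ?_, ?_, ?_⟩
  · intro hy
    refine ⟨Finset.prod_nonneg fun i hi => h0le _ (hy i hi).1 (hy i hi).2, ?_⟩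
    have h1 : ∏ i ∈ S, f0 θ (y i) ≤ ∏ i ∈ S, Real.exp (-(y i) / 2) :=
      Finset.prod_le_prod (fun i hi => h0le _ (hy i hi).1 (hy i hi).2)
        fun i hi => hle _ (hy i hi).1 (hy i hi).2
    refine h1.trans_eq ?_
    rw [← Real.exp_sum]
    congr 1
    rw [← Finset.sum_div, Finset.sum_neg_distrib]
  · intro hy Y p hS hY hp hpb
    by_cases hz : ∃ i ∈ S, y i = z
    · obtain ⟨i, hi, hiz⟩ := hz
      rw [Finset.prod_eq_zero hi (by rw [hiz, hfz])]
      positivity
    · push Not at hz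
      have hy' : ∀ i ∈ S, y i ∈ Ico 0 z := fun i hi =>
        ⟨(hy i hi).1, lt_of_le_of_ne (hy i hi).2 (hz i hi)⟩
      obtain ⟨hmem, hprod⟩ := prod_le_pow (f := f0 θ) hcv S y hS hy' fun x hx => hpos x hx.1 hx.2
      refine hprod.trans (pow_le_pow_left₀ (hpos _ hmem.1 hmem.2).le ?_ _)
      refine hpb _ hmem.1 ?_ hmem.2
      have hc : (0 : ℝ) < S.card := by exact_mod_cast hS.card_pos
      rw [le_div_iff₀ hc]
      linarith
  · intro hy Yl Yu F hS hYl hYu hF
    have hneg' : ∀ x ∈ Ioc z xW, 0 < -f0 θ x := fun x hx =>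
      neg_pos.2 (hneg x hx.1 (hx.2.trans hFA.WN))
    have hcv' : ConvexOn ℝ (Ioc z xW) (fun x => -Real.log (-f0 θ x)) := hcc.neg
    obtain ⟨hmem, hprod⟩ := prod_le_pow (f := fun x => -f0 θ x) hcv' S y hS
      (fun i hi => ⟨(hy i hi).1, (hy i hi).2⟩) hneg'
    have e1 : ∏ i ∈ S, |f0 θ (y i)| = ∏ i ∈ S, -f0 θ (y i) :=
      Finset.prod_congr rfl fun i hi =>
        abs_of_neg (neg_pos.1 (hneg' _ ⟨(hy i hi).1, (hy i hi).2⟩))
    rw [e1]
    refine hprod.trans (pow_le_pow_left₀ (hneg' _ hmem).le ?_ _)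
    have hc : (0 : ℝ) < S.card := by exact_mod_cast hS.card_pos
    have h1 : Yl ≤ (∑ i ∈ S, y i) / S.card := by
      rw [le_div_iff₀ hc]
      linarith
    have h2 : (∑ i ∈ S, y i) / S.card ≤ Yu := by
      rw [div_le_iff₀ hc]
      linarith
    exact (neg_le_abs _).trans (hF _ hmem.1.le h1 h2)
  · intro a b c A B C hb hbc hca haz hB hBC hCA hAa hbB hsum
    have hder : ∀ x, 0 ≤ x → x < z →
        HasDerivAt (fun x => -Real.log (f0 θ x)) (rr θ x / 2) x := by
      intro x h0 h1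
      have h2 : HasDerivAt (fun x => -Real.log (f0 θ x)) _ x :=
        ((hasDerivAt_f0 hθ0 hθ1 x).log (hpos x h0 h1).ne').neg
      refine h2.congr_deriv ?_
      unfold rr
      ring
    have hA0 : 0 ≤ A := by linarith
    have hC0 : 0 ≤ C := by linarith
    have hAz : A < z := by linarith
    have hCz : C < z := by linarith
    have hBz : B < z := by linarith
    have hcz : c < z := by linarith
    have hbz : b < z := by linarith
    have hc0 : 0 ≤ c := by linarith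
    have ha0 : 0 ≤ a := by linarith
    have t1 := tangent hcv (x := A) (y := a) ⟨hA0, hAz⟩ ⟨ha0, haz⟩ (hder A hA0 hAz)
    have t2 := tangent hcv (x := C) (y := c) ⟨hC0, hCz⟩ ⟨hc0, hcz⟩ (hder C hC0 hCz)
    have t3 := tangent hcv (x := B) (y := b) ⟨hB, hBz⟩ ⟨hb, hbz⟩ (hder B hB hBz)
    have m1 : rr θ C ≤ rr θ A := hrr.monotoneOn ⟨hC0, hCz⟩ ⟨hA0, hAz⟩ hCA
    have m2 : rr θ B ≤ rr θ C := hrr.monotoneOn ⟨hB, hBz⟩ ⟨hC0, hCz⟩ hBC
    have key : Real.log (f0 θ a) + Real.log (f0 θ b) + Real.log (f0 θ c) ≤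
        Real.log (f0 θ A) + Real.log (f0 θ B) + Real.log (f0 θ C) := by
      have h1 : 0 ≤ (rr θ A - rr θ C) * (a - A) :=
        mul_nonneg (by linarith) (by linarith)
      have h2 : 0 ≤ (rr θ C - rr θ B) * (B - b) :=
        mul_nonneg (by linarith) (by linarith)
      have h3 : c - C = (B - b) - (a - A) := by linarith
      rw [h3] at t2
      nlinarith [t1, t2, t3, h1, h2]
    have pa := hpos a ha0 haz
    have pb := hpos b hb hbz
    have pc := hpos c hc0 hcz
    have pA := hpos A hA0 hAz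
    have pB := hpos B hB hBz
    have pC := hpos C hC0 hCz
    have e1 : f0 θ a * f0 θ b * f0 θ c =
        Real.exp (Real.log (f0 θ a) + Real.log (f0 θ b) + Real.log (f0 θ c)) := by
      rw [Real.exp_add, Real.exp_add, Real.exp_log pa, Real.exp_log pb, Real.exp_log pc]
    have e2 : f0 θ A * f0 θ B * f0 θ C =
        Real.exp (Real.log (f0 θ A) + Real.log (f0 θ B) + Real.log (f0 θ C)) := by
      rw [Real.exp_add, Real.exp_add, Real.exp_log pA, Real.exp_log pB, Real.exp_log pC]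
    rw [e1, e2]
    exact Real.exp_le_exp.2 key

end Pool.Agent.Helper86.PT
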